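import Pool.Agent.N303.SJ.Stm

set_option autoImplicit false

/-! # Project SJ, BESL: lower bound for the means of the Bessel type functions -/

open MeasureTheory Metric Set Filter Topology
open scoped ENNReal RealInnerProductSpace

namespace Pool.Agent.N707.SJ

open Pool.Agent.N303.SH Pool.Agent.N303.SJ

section one

variable {μ A : ℝ} {w v : ℝ → ℝ}

/-- lower bound of `G` beyond the turning point -/
lemma G_low (hμ : 0 ≤ μ) (o : Ode μ w v)
    (hA : Tendsto (fun t => w t ^ 2 + v t ^ 2) atTop (𝓝 A)) (hA0 : 0 ≤ A) {a t : ℝ} (ha : 0 < a)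
    (h4 : 4 * μ ≤ a ^ 2) (ht : a < t) :
    2 / 3 * A ≤ (1 - μ / t ^ 2) * w t ^ 2 + v t ^ 2 := by
  set G : ℝ → ℝ := fun t => (1 - μ / t ^ 2) * w t ^ 2 + v t ^ 2 with hG
  have hsm : ∀ s, a < s → μ / s ^ 2 ≤ 1 / 4 := by
    intro s hs
    rw [div_le_div_iff₀ (by nlinarith) (by norm_num)]
    nlinarith
  have hGe : Tendsto G atTop (𝓝 A) := by
    have h1 := hA.sub (w_div hμ o)
    rw [sub_zero] at h1
    refine h1.congr fun t => ?_
    simp only [hG]
    ring
  have hE : Tendsto (fun s : ℝ => Real.exp (4 / 3 * (μ / s ^ 2))) atTop (𝓝 1) := by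
    have l1 : Tendsto (fun s : ℝ => μ / s ^ 2) atTop (𝓝 0) :=
      tendsto_const_nhds.div_atTop (tendsto_pow_atTop two_ne_zero)
    have l2 := (l1.const_mul (4 / 3)).rexp
    rwa [mul_zero, Real.exp_zero] at l2
  have hd : ∀ s, a < s → HasDerivAt (fun s => -(G s * Real.exp (4 / 3 * (μ / s ^ 2))))
      (-((2 * μ / s ^ 3 * w s ^ 2) * Real.exp (4 / 3 * (μ / s ^ 2)) +
        G s * (Real.exp (4 / 3 * (μ / s ^ 2)) * (4 / 3 * (-(2 * μ) / s ^ 3))))) s := by
    intro s hs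
    have hs0 : 0 < s := ha.trans hs
    have h2 : HasDerivAt (fun t : ℝ => t ^ 2) (2 * s) s := by
      simpa using hasDerivAt_pow 2 s
    have h3 : HasDerivAt (fun t : ℝ => μ / t ^ 2) (-(2 * μ) / s ^ 3) s := by
      refine ((hasDerivAt_const s μ).div h2 (by positivity)).congr_deriv ?_
      field_simp
      ring
    exact ((dG o hs0).mul (h3.const_mul (4 / 3)).exp).neg
  have key := le_lim hd (fun s hs => by
    have hs0 : 0 < s := ha.trans hs
    have h1 := hsm s hs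
    have h2 : 3 / 4 * w s ^ 2 ≤ G s := by
      simp only [hG]
      nlinarith [sq_nonneg (w s), sq_nonneg (v s)]
    have h3 : -((2 * μ / s ^ 3 * w s ^ 2) * Real.exp (4 / 3 * (μ / s ^ 2)) +
        G s * (Real.exp (4 / 3 * (μ / s ^ 2)) * (4 / 3 * (-(2 * μ) / s ^ 3)))) =
        2 * μ / s ^ 3 * Real.exp (4 / 3 * (μ / s ^ 2)) * (4 / 3 * G s - w s ^ 2) := by ring
    rw [h3]
    apply mul_nonneg (by positivity)
    linarith) (by
      have := (hGe.mul hE).neg
      rwa [mul_one] at this) ht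
  have h1 : A ≤ G t * Real.exp (4 / 3 * (μ / t ^ 2)) := by linarith
  have h2 := hsm t ht
  have h3 : Real.exp (4 / 3 * (μ / t ^ 2)) ≤ 3 / 2 := by
    have h4 : Real.exp (4 / 3 * (μ / t ^ 2)) ≤ Real.exp (1 / 3) :=
      Real.exp_le_exp.2 (by linarith)
    have h5 : Real.exp (1 / 3) * Real.exp (-(1 / 3)) = 1 := by rw [← Real.exp_add]; simp
    have h6 := Real.add_one_le_exp (-(1 / 3 : ℝ))
    have h7 := Real.exp_pos (1 / 3 : ℝ)
    nlinarith
  have hG0 : 0 ≤ G t := by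
    by_contra hcon
    have := Real.exp_pos (4 / 3 * (μ / t ^ 2))
    have : G t * Real.exp (4 / 3 * (μ / t ^ 2)) < 0 := mul_neg_of_neg_of_pos (not_le.1 hcon) this
    linarith
  have h4 := mul_le_mul_of_nonneg_left h3 hG0
  have h5 : G t = (1 - μ / t ^ 2) * w t ^ 2 + v t ^ 2 := rfl
  rw [← h5]
  linarith

lemma int_low (hμ : 0 ≤ μ) (o : Ode μ w v)
    (hA : Tendsto (fun t => w t ^ 2 + v t ^ 2) atTop (𝓝 A)) (hA0 : 0 ≤ A) {a x y : ℝ} (ha : 0 < a)
    (h4 : 4 * μ ≤ a ^ 2) (hx : a < x) (hxy : x ≤ y) :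
    A * ((y - x) / 3 - 2 / 3) ≤ ∫ t in x..y, w t ^ 2 := by
  have hpos : ∀ t ∈ uIcc x y, a < t := by
    intro t ht
    rw [uIcc_of_le hxy] at ht
    exact lt_of_lt_of_le hx ht.1
  have hwc : ContinuousOn w (uIcc x y) := fun t ht =>
    (o.dw t (ha.trans (hpos t ht))).continuousAt.continuousWithinAt
  have hvc : ContinuousOn v (uIcc x y) := fun t ht =>
    (o.dv t (ha.trans (hpos t ht))).continuousAt.continuousWithinAt
  have hmc : ContinuousOn (fun t : ℝ => μ / t ^ 2) (uIcc x y) := by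
    refine continuousOn_const.div (by fun_prop) fun t ht => ?_
    have := ha.trans (hpos t ht)
    positivity
  have hPc : ContinuousOn (fun t => v t ^ 2 + (μ / t ^ 2 - 1) * w t ^ 2) (uIcc x y) :=
    (hvc.pow 2).add ((hmc.sub continuousOn_const).mul (hwc.pow 2))
  have hP : ∫ t in x..y, (v t ^ 2 + (μ / t ^ 2 - 1) * w t ^ 2) = w y * v y - w x * v x :=
    intervalIntegral.integral_eq_sub_of_hasDerivAt
      (fun t ht => dp o (ha.trans (hpos t ht))) hPc.intervalIntegrable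
  have hw2 : IntervalIntegrable (fun t => 2 * w t ^ 2) volume x y :=
    (continuousOn_const.mul (hwc.pow 2)).intervalIntegrable
  have h1 : ∫ t in x..y, 2 / 3 * A ≤
      ∫ t in x..y, (2 * w t ^ 2 + (v t ^ 2 + (μ / t ^ 2 - 1) * w t ^ 2)) := by
    refine intervalIntegral.integral_mono_on hxy intervalIntegrable_const
      (hw2.add hPc.intervalIntegrable) fun t ht => ?_
    have hat : a < t := lt_of_lt_of_le hx ht.1
    have h2 := G_low hμ o hA hA0 ha h4 hat
    have h3 : 0 ≤ μ / t ^ 2 := by positivity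
    nlinarith [sq_nonneg (w t)]
  rw [intervalIntegral.integral_add hw2 hPc.intervalIntegrable, hP,
    intervalIntegral.integral_const, intervalIntegral.integral_const_mul, smul_eq_mul] at h1
  have hb : ∀ t, a < t → |w t * v t| ≤ 2 / 3 * A := by
    intro t hat
    have ht0 := ha.trans hat
    have h2 := G_le hμ o hA ht0
    have h3 : μ / t ^ 2 ≤ 1 / 4 := by
      rw [div_le_div_iff₀ (by nlinarith) (by norm_num)]
      nlinarith
    have h5 : w t ^ 2 + v t ^ 2 ≤ 4 / 3 * A := by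
      nlinarith [sq_nonneg (w t), sq_nonneg (v t)]
    rw [abs_le]
    constructor <;> nlinarith [sq_nonneg (w t - v t), sq_nonneg (w t + v t)]
  have h5 := abs_le.1 (hb x hx)
  have h6 := abs_le.1 (hb y (lt_of_lt_of_le hx hxy))
  nlinarith

end one

variable {c : ℕ}

/-- the common limit is positive -/
lemma A_pos (hc : 1 ≤ c) {A : ℝ}
    (hA : Tendsto (fun t => wk c 0 t ^ 2 + vk c 0 t ^ 2) atTop (𝓝 A)) : 0 < A := by
  have hA0 := A_nonneg hA
  rcases hA0.lt_or_eq with h | h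
  · exact h
  exfalso
  have hμ := mk_nonneg hc 0
  have o : Ode (mk c 0) (wk c 0) (vk c 0) := ode_k 0
  have hG : ∀ t : ℝ, 0 < t → (1 - mk c 0 / t ^ 2) * wk c 0 t ^ 2 + vk c 0 t ^ 2 = 0 := by
    intro t ht
    have h1 := G_nonneg hμ o (zero_k hc 0) ht
    have h2 := G_le hμ o hA ht
    linarith
  have hw : ∀ t : ℝ, 0 < t → wk c 0 t = 0 := by
    intro t ht
    have h1 := dG o ht
    have h2 : (fun t => (1 - mk c 0 / t ^ 2) * wk c 0 t ^ 2 + vk c 0 t ^ 2) =ᶠ[𝓝 t] fun _ => 0 := by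
      filter_upwards [lt_mem_nhds ht] with s hs
      exact hG s hs
    have h3 := (h1.congr_of_eventuallyEq h2.symm).unique (hasDerivAt_const t (0 : ℝ))
    by_cases hm : mk c 0 = 0
    · have h4 := hG t ht
      rw [hm, zero_div, sub_zero, one_mul] at h4
      have h5 : wk c 0 t ^ 2 = 0 := by nlinarith [sq_nonneg (wk c 0 t), sq_nonneg (vk c 0 t)]
      exact pow_eq_zero_iff two_ne_zero |>.1 h5
    · have h4 : 2 * mk c 0 / t ^ 3 ≠ 0 := by positivity
      have h5 := (mul_eq_zero.1 h3).resolve_left h4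
      exact pow_eq_zero_iff two_ne_zero |>.1 h5
  have hF : ∀ t : ℝ, 0 < t → Fk (e0 c) (e1 c) 0 t = 0 := by
    intro t ht
    rw [← norm_eq_zero, norm_Fk c 0 ht, abs_eq_zero]
    have h1 := hw t ht
    unfold wk at h1
    exact (mul_eq_zero.1 h1).resolve_left (Real.rpow_pos_of_pos ht _).ne'
  have hF0 : Fk (e0 c) (e1 c) 0 0 = 0 := by
    have h1 : Tendsto (Fk (e0 c) (e1 c) 0) (𝓝[>] 0) (𝓝 (Fk (e0 c) (e1 c) 0 0)) :=
      ((Fk_cont c 0).tendsto 0).mono_left nhdsWithin_le_nhds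
    have h2 : Tendsto (Fk (e0 c) (e1 c) 0) (𝓝[>] 0) (𝓝 0) := by
      refine tendsto_const_nhds.congr' ?_
      filter_upwards [self_mem_nhdsWithin] with t ht
      exact (hF t ht).symm
    exact tendsto_nhds_unique h1 h2
  have hV := V_pos c
  have h6 : Fk (e0 c) (e1 c) 0 0 = (((sg (c + 2)).real univ : ℝ) : ℂ) := by
    unfold Fk ex
    have : ∀ x : S (c + 2), Complex.exp (-((0:ℝ) * ⟪e0 c, (x : E (c + 2))⟫ : ℝ) * Complex.I) *
        zz (e0 c) (e1 c) x ^ 0 = 1 := by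
      intro x
      rw [zero_mul, Complex.ofReal_zero, neg_zero, zero_mul, Complex.exp_zero, pow_zero, mul_one]
    simp_rw [this]
    rw [integral_const]
    simp
  rw [h6] at hF0
  have h7 : (sg (c + 2)).real univ = 0 := by exact_mod_cast hF0
  linarith

lemma Ic_wk (l : ℕ) {r : ℝ} (hr : 0 < r) :
    ‖Ic c l r‖ ^ 2 * r ^ (c + 1) = ((2 * Real.pi) ^ (c + 1))⁻¹ * wk c l (2 * Real.pi * r) ^ 2 := by
  have hpi : (0:ℝ) < 2 * Real.pi := by positivity
  have ht : 0 < 2 * Real.pi * r := by positivity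
  unfold Ic wk
  rw [Ik_eq, norm_Fk c l ht, mul_pow (_ ^ sc c) (be c l _), sq_abs]
  have h1 : ((2 * Real.pi * r) ^ sc c) ^ 2 = (2 * Real.pi * r) ^ (c + 1) := by
    rw [← Real.rpow_natCast, ← Real.rpow_mul ht.le, ← Real.rpow_natCast]
    congr 1
    unfold sc
    push_cast
    ring
  rw [h1, mul_pow (2 * Real.pi) r]
  field_simp

theorem t_besl : S_BESL := by
  intro c hc
  obtain ⟨A, hA⟩ := lim_all hc
  have hA0 := A_pos hc (hA 0)
  have hpi3 := Real.pi_gt_three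
  have hpi : (0:ℝ) < 2 * Real.pi := by positivity
  have hc1 : (1:ℝ) ≤ c := by exact_mod_cast hc
  refine ⟨c + 1, ((2 * Real.pi) ^ (c + 1))⁻¹ * ((2 * Real.pi)⁻¹ * (A / 3)), by linarith,
    by positivity, fun l ρ hρ => ?_⟩
  have hl : (0:ℝ) ≤ l := Nat.cast_nonneg l
  have hρ2 : 2 ≤ ρ := by nlinarith
  have hak : 2 * ak c l ≤ ρ := by
    unfold ak sc
    nlinarith
  have hak1 := ak_ge hc l
  have hakp : 0 < 2 * ak c l := by linarith
  have h4 : 4 * mk c l ≤ (2 * ak c l) ^ 2 := by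
    have h5 : mk c l = ak c l * (ak c l - 1) := rfl
    rw [h5]
    nlinarith
  have key := int_low (mk_nonneg hc l) (ode_k l) (hA l) hA0.le hakp h4 (x := 2 * Real.pi * (ρ / 2))
    (y := 2 * Real.pi * ρ) (by nlinarith) (by nlinarith)
  have hsub : ∫ r in (ρ / 2)..ρ, wk c l (2 * Real.pi * r) ^ 2 =
      (2 * Real.pi)⁻¹ * ∫ t in (2 * Real.pi * (ρ / 2))..(2 * Real.pi * ρ), wk c l t ^ 2 := by
    have := intervalIntegral.integral_comp_mul_left (a := ρ / 2) (b := ρ)
      (fun t => wk c l t ^ 2) hpi.ne'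
    rw [this, smul_eq_mul]
  have hlow : ((2 * Real.pi) ^ (c + 1))⁻¹ * ((2 * Real.pi)⁻¹ * (A / 3)) * ρ ≤
      ∫ r in Ioc (ρ / 2) ρ, ‖Ic c l r‖ ^ 2 * r ^ (c + 1) := by
    have e1 : ∫ r in Ioc (ρ / 2) ρ, ‖Ic c l r‖ ^ 2 * r ^ (c + 1) =
        ∫ r in Ioc (ρ / 2) ρ, ((2 * Real.pi) ^ (c + 1))⁻¹ * wk c l (2 * Real.pi * r) ^ 2 := by
      refine setIntegral_congr_fun measurableSet_Ioc fun r hr => ?_
      exact Ic_wk l (by linarith [hr.1])
    rw [e1, integral_const_mul, ← intervalIntegral.integral_of_le (by linarith), hsub, mul_assoc,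
      mul_assoc]
    apply mul_le_mul_of_nonneg_left _ (by positivity)
    apply mul_le_mul_of_nonneg_left _ (by positivity)
    refine le_trans ?_ key
    have : ρ ≤ 2 * Real.pi * ρ - 2 * Real.pi * (ρ / 2) - 2 := by nlinarith
    nlinarith
  have hcont : Continuous fun r : ℝ => ‖Ic c l r‖ ^ 2 * r ^ (c + 1) := by
    have h1 : Continuous fun r : ℝ => Ic c l r := by
      have : (fun r : ℝ => Ic c l r) = fun r => Fk (e0 c) (e1 c) l (2 * Real.pi * r) := by
        funext r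
        exact Ik_eq _ _ _ _
      rw [this]
      exact (Fk_cont c l).comp (by fun_prop)
    exact (h1.norm.pow 2).mul (continuous_id.pow _)
  calc ENNReal.ofReal (((2 * Real.pi) ^ (c + 1))⁻¹ * ((2 * Real.pi)⁻¹ * (A / 3)) * ρ)
      ≤ ENNReal.ofReal (∫ r in Ioc (ρ / 2) ρ, ‖Ic c l r‖ ^ 2 * r ^ (c + 1)) :=
        ENNReal.ofReal_le_ofReal hlow
    _ = ∫⁻ r in Ioc (ρ / 2) ρ, ENNReal.ofReal (‖Ic c l r‖ ^ 2 * r ^ (c + 1)) := by
        rw [ofReal_integral_eq_lintegral_ofReal]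
        · exact (hcont.integrableOn_Icc (a := ρ / 2) (b := ρ)).mono_set Ioc_subset_Icc_self
        · filter_upwards [ae_restrict_mem measurableSet_Ioc] with r hr
          have : 0 < r := by linarith [hr.1]
          positivity
    _ = ∫⁻ r in Ioo (ρ / 2) ρ, ENNReal.ofReal (‖Ic c l r‖ ^ 2 * r ^ (c + 1)) :=
        setLIntegral_congr Ioo_ae_eq_Ioc.symm
    _ ≤ _ := lintegral_mono_set (Ioo_subset_Ioo_left (by linarith))

end Pool.Agent.N707.SJ
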